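import Pool.Agent.Lib.MP_0f7bfe_al.QT.Final

/-!
# Asymptotic minors of groups with an infinite abelian torsion subgroup (problem MP_0f7bfe_al)

Let `Γ` be a group which has an infinite abelian subgroup `Q` all of whose elements have finite
order. Then every finite graph is an asymptotic minor of every Cayley graph of `Γ` (with respect to
a finite generating set).
-/

namespace Pool.Agent.Results.MP_0f7bfe_al.AbelianTorsionSubgroup

open Pool.Agent.Lib.MP_0f7bfe_al

universe u

theorem result {Γ : Type u} [Group Γ] (Q : Subgroup Γ) (hcomm : ∀ a ∈ Q, ∀ b ∈ Q, a * b = b * a)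
    (htor : ∀ a ∈ Q, IsOfFinOrder a) (hinf : (Q : Set Γ).Infinite) :
    ∀ S : Set Γ, S.Finite → Subgroup.closure S = ⊤ → ∀ (n : ℕ) (H : SimpleGraph (Fin n)),
      IsAsymptoticMinor H (SimpleGraph.mulCayley S) := by
  intro S hS hgen n H
  letI : CommGroup Q :=
    { (inferInstance : Group Q) with
      mul_comm := fun a b => Subtype.ext (hcomm a a.2 b b.2) }
  haveI : Infinite Q := hinf.to_subtype
  have hG : Group.FG Γ := ⟨⟨hS.toFinset, by rw [Set.Finite.coe_toFinset, hgen]⟩⟩
  exact asymptotic_of_allCliques
    (QT.allCliques_of_torsion hG (Q := Q)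
      (fun q => (Function.Injective.isOfFinOrder_iff (f := Q.subtype)
        Q.subtype_injective).1 (htor q q.2)) Q.subtype Q.subtype_injective)
    S hS hgen n H

end Pool.Agent.Results.MP_0f7bfe_al.AbelianTorsionSubgroup
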