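import Pool.Agent.Lib.MP_0f7bfe_al.OE.AC

/-!
# Asymptotic minors of infinitely presented groups (problem MP_0f7bfe_al)

Let `E` be an accessible group (for instance a finitely generated group with at most one end)
which is not finitely presented, and let `Γ` be a group containing `E`. Then every finite graph is
an asymptotic minor of every Cayley graph of `Γ`.
-/

namespace Pool.Agent.Results.MP_0f7bfe_al.AccessibleNotFinitelyPresented

open Pool.Agent.Lib.MP_0f7bfe_al

universe u v

theorem result {E : Type u} {Γ : Type v} [Group E] [Group Γ] (f : E →* Γ)
    (hf : Function.Injective f) (hE : OE.Accessible E) (hfp : ¬ Group.IsFinitelyPresented E) :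
    ∀ S : Set Γ, S.Finite → Subgroup.closure S = ⊤ → ∀ (n : ℕ) (H : SimpleGraph (Fin n)),
      IsAsymptoticMinor H (SimpleGraph.mulCayley S) := by
  intro S hS hgen n H
  exact asymptotic_of_allCliques (((OE.accessible_dichotomy hE).resolve_left hfp).map f hf)
    S hS hgen n H

end Pool.Agent.Results.MP_0f7bfe_al.AccessibleNotFinitelyPresented
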