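import Pool.Agent.Lib.MP_0f7bfe_al.KLMain

/-!
# Asymptotic minors of amenable groups and of groups without Dirichlet harmonic functions
(problem MP_0f7bfe_al)

Let `E` be a group with finite generating set `S` such that every harmonic function of finite
Dirichlet energy on the Cayley graph is constant (equivalently, for infinite `E`, the first
`ℓ²`-Betti number of `E` is zero), or `E` is amenable, and let `Γ` be a group containing `E`.
Then either every finite graph is an asymptotic minor of every Cayley graph of `Γ`, or `E` is
virtually planar, and in fact finite, virtually `ℤ` or virtually `ℤ × ℤ`.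
-/

namespace Pool.Agent.Results.MP_0f7bfe_al.L2BettiZeroOrAmenable

open Pool.Agent.Lib.MP_0f7bfe_al

universe u v

theorem result {E : Type u} {Γ : Type v} [Group E] [Group Γ] (f : E →* Γ)
    (hf : Function.Injective f) (S : Finset E) (hS : Subgroup.closure (S : Set E) = ⊤)
    (hE : DirichletLiouville S ∨ FolnerAmenable E) :
    (∀ S' : Set Γ, S'.Finite → Subgroup.closure S' = ⊤ → ∀ (n : ℕ) (H : SimpleGraph (Fin n)),
      IsAsymptoticMinor H (SimpleGraph.mulCayley S')) ∨
    (VirtuallyPlanar E ∧ ∃ A : Subgroup E, A.index ≠ 0 ∧ (Subsingleton A ∨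
      Nonempty (A ≃* Multiplicative ℤ) ∨ Nonempty (A ≃* Multiplicative (ℤ × ℤ)))) := by
  rcases small_or_allCliques S hS hE with h | h
  · left
    intro S' hfin hgen n H
    exact asymptotic_of_allCliques (h.map f hf) S' hfin hgen n H
  · exact Or.inr ⟨h.virtuallyPlanar, h⟩

end Pool.Agent.Results.MP_0f7bfe_al.L2BettiZeroOrAmenable
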