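import Pool.Agent.Lib.MP_0f7bfe_al.OCMain
import Pool.Agent.Lib.MP_0f7bfe_al.FM1

/-!
# Asymptotic minors and infinite cyclic subgroups with one coend (problem MP_0f7bfe_al)

Let `E` be a group with finite generating set `S` and let `z` be an element of `E` of infinite
order which generates a subgroup of infinite index with one coend: any two points of the Cayley
graph far away from `⟨z⟩` can be joined by a path far away from `⟨z⟩`. Then every finite graph is an
asymptotic minor of every Cayley graph of every finitely generated group `Γ` containing `E`.
-/

namespace Pool.Agent.Results.MP_0f7bfe_al.OneCoendElement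

open Pool.Agent.Lib.MP_0f7bfe_al

universe u v

theorem result {E : Type u} {Γ : Type v} [Group E] [Group Γ] (f : E →* Γ)
    (hf : Function.Injective f) (S : Set E) (hS : S.Finite) (hgen : Subgroup.closure S = ⊤)
    (z : E) (hz : ¬ IsOfFinOrder z) (hidx : (Subgroup.zpowers z).index = 0)
    (h : OneCoend S z) (S' : Set Γ) (hS' : S'.Finite) (hgen' : Subgroup.closure S' = ⊤) (n : ℕ)
    (H : SimpleGraph (Fin n)) : IsAsymptoticMinor H (SimpleGraph.mulCayley S') :=
  asymptotic_of_allCliques ((allCliques_of_oneCoend S hS hgen z hz
    (Subgroup.index_eq_zero_iff_infinite.1 hidx) h).map f hf) S' hS' hgen' n H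

end Pool.Agent.Results.MP_0f7bfe_al.OneCoendElement
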